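import Pool.Agent.Q268.ZL.Tree

/-!
# Trees: counting in the core, and the initial potential
-/

set_option autoImplicit false

universe u

namespace Pool.Agent.Q268.ZL

variable {V : Type u} {G : SimpleGraph V}

section

variable [Fintype V] [DecidableEq V] [DecidableRel G.Adj]

/-- the non-leaves -/
def core (G : SimpleGraph V) [DecidableRel G.Adj] : Finset V :=
  Finset.univ.filter fun v => 2 ≤ G.degree v

/-- the number of neighbours in the core -/
def del (G : SimpleGraph V) [DecidableRel G.Adj] (v : V) : ℕ :=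
  ((core G).filter fun w => G.Adj v w).card

theorem leaf_unique {x : V} (hx : x ∉ core G) {y z : V} (hy : G.Adj x y) (hz : G.Adj x z) :
    y = z := by
  have hd : G.degree x ≤ 1 := by
    simp only [core, Finset.mem_filter, Finset.mem_univ, true_and, not_le] at hx
    omega
  rw [← SimpleGraph.card_neighborFinset_eq_degree, Finset.card_le_one] at hd
  exact hd y (by simpa using hy) z (by simpa using hz)

theorem leaf_nbr_core (hG : G.IsTree) {c x y : V} (hc : c ∈ core G) (hx : x ∉ core G)
    (hxy : G.Adj x y) : y ∈ core G := by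
  by_contra hy
  have key : ∀ (v w : V), G.Walk v w → (v = x ∨ v = y) → (w = x ∨ w = y) := by
    intro v w p
    induction p with
    | nil => exact id
    | cons h _ ih =>
      intro hv
      apply ih
      rcases hv with rfl | rfl
      · exact Or.inr (leaf_unique hx h hxy)
      · exact Or.inl (leaf_unique hy h hxy.symm)
  obtain ⟨p⟩ := hG.connected x c
  rcases key x c p (Or.inl rfl) with rfl | rfl
  · exact hx hc
  · exact hy hc

theorem degree_split (v : V) :
    G.degree v = del G v + ((Finset.univ \ core G).filter fun w => G.Adj v w).card := by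
  unfold del
  rw [← SimpleGraph.card_neighborFinset_eq_degree, ← Finset.card_union_of_disjoint]
  · congr 1
    ext w
    simp only [SimpleGraph.mem_neighborFinset, Finset.mem_union, Finset.mem_filter,
      Finset.mem_sdiff, Finset.mem_univ, true_and]
    tauto
  · rw [Finset.disjoint_left]
    intro w hw hw'
    simp only [Finset.mem_filter, Finset.mem_sdiff, Finset.mem_univ, true_and] at hw hw'
    exact hw'.1 hw.1

theorem sum_del (hG : G.IsTree) (hN : ∀ x, ∃ y, G.Adj x y) (hc : (core G).Nonempty) :
    ∑ v ∈ core G, del G v + 2 = 2 * (core G).card := by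
  obtain ⟨c, hc⟩ := hc
  have hdeg : ∑ v, G.degree v = 2 * G.edgeFinset.card := G.sum_degrees_eq_twice_card_edges
  have hcard : G.edgeFinset.card + 1 = Fintype.card V := hG.card_edgeFinset
  have hsplit : ∑ v, G.degree v = ∑ v ∈ core G, G.degree v
      + ∑ v ∈ Finset.univ \ core G, G.degree v := by
    rw [add_comm, Finset.sum_sdiff (Finset.subset_univ _)]
  have hleaf : ∀ v ∈ Finset.univ \ core G, G.degree v = 1 := by
    intro v hv
    simp only [Finset.mem_sdiff, Finset.mem_univ, true_and, core, Finset.mem_filter,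
      not_le] at hv
    have hpos : 0 < G.degree v := by
      rw [SimpleGraph.degree_pos_iff_exists_adj]
      exact hN v
    omega
  have hL : ∑ v ∈ Finset.univ \ core G, G.degree v = (Finset.univ \ core G).card := by
    rw [Finset.sum_congr rfl hleaf]
    simp
  have hcore : ∑ v ∈ core G, G.degree v = ∑ v ∈ core G, del G v
      + ∑ v ∈ core G, ((Finset.univ \ core G).filter fun w => G.Adj v w).card := by
    rw [← Finset.sum_add_distrib]
    exact Finset.sum_congr rfl fun v _ => degree_split v
  have hdouble : ∑ v ∈ core G, ((Finset.univ \ core G).filter fun w => G.Adj v w).card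
      = (Finset.univ \ core G).card := by
    have h1 : ∀ v, ((Finset.univ \ core G).filter fun w => G.Adj v w).card
        = ∑ w ∈ Finset.univ \ core G, if G.Adj v w then 1 else 0 := by
      intro v
      rw [Finset.card_filter]
    simp_rw [h1]
    rw [Finset.sum_comm]
    rw [Finset.card_eq_sum_ones]
    refine Finset.sum_congr rfl fun w hw => ?_
    rw [← Finset.card_filter, Finset.card_eq_one]
    have hw' : w ∉ core G := (Finset.mem_sdiff.1 hw).2
    obtain ⟨y, hy⟩ := hN w
    refine ⟨y, ?_⟩
    ext z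
    simp only [Finset.mem_filter, Finset.mem_singleton]
    constructor
    · rintro ⟨_, hz⟩
      exact leaf_unique hw' hz.symm hy
    · rintro rfl
      exact ⟨leaf_nbr_core hG hc hw' hy, hy.symm⟩
  have hn : Fintype.card V = (core G).card + (Finset.univ \ core G).card := by
    rw [← Finset.card_univ, ← Finset.card_sdiff_add_card_eq_card (Finset.subset_univ (core G)),
      add_comm]
  rw [hdouble] at hcore
  omega

theorem und_single {a x : V} : Und G [a] x ↔ ¬ (x = a ∨ G.Adj a x) := by
  simp [Und]

theorem tok_le (a v : V) : tok G (core G) [a] v ≤ 1 + del G v := by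
  classical
  unfold tok del
  have : ((core G).filter fun r => Und G [a] r ∧ (r = v ∨ G.Adj v r))
      ⊆ insert v ((core G).filter fun w => G.Adj v w) := by
    intro r hr
    simp only [Finset.mem_filter] at hr
    rcases hr.2.2 with rfl | h
    · exact Finset.mem_insert_self _ _
    · exact Finset.mem_insert_of_mem (Finset.mem_filter.2 ⟨hr.1, h⟩)
  have h1 := Finset.card_le_card this
  have h2 := Finset.card_insert_le v ((core G).filter fun w => G.Adj v w)
  rw [add_comm]
  refine le_trans (le_of_eq ?_) (h1.trans h2)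
  congr

theorem tok_adj_le {a b : V} (ha : a ∈ core G) (hab : G.Adj a b) :
    tok G (core G) [a] b + 1 ≤ del G b := by
  classical
  unfold tok del
  have hsub : ((core G).filter fun r => Und G [a] r ∧ (r = b ∨ G.Adj b r))
      ⊆ ((core G).filter fun w => G.Adj b w).erase a := by
    intro r hr
    simp only [Finset.mem_filter] at hr
    have hU := und_single.1 hr.2.1
    refine Finset.mem_erase.2 ⟨fun h => hU (Or.inl h), Finset.mem_filter.2 ⟨hr.1, ?_⟩⟩
    rcases hr.2.2 with rfl | h
    · exact absurd (Or.inr hab) hU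
    · exact h
  have h1 := Finset.card_le_card hsub
  have hmem : a ∈ (core G).filter fun w => G.Adj b w := Finset.mem_filter.2 ⟨ha, hab.symm⟩
  rw [Finset.card_erase_of_mem hmem] at h1
  have hpos : 0 < ((core G).filter fun w => G.Adj b w).card := Finset.card_pos.2 ⟨a, hmem⟩
  have h2 : (Finset.filter (fun r => Und G [a] r ∧ (r = b ∨ G.Adj b r)) (core G)).card + 1
      ≤ ((core G).filter fun w => G.Adj b w).card := by omega
  refine le_trans (le_of_eq ?_) h2
  congr

theorem arith_aux (d : ℕ) (hd : 2 ≤ d) : (1 : ℚ) ≤ (d : ℚ) / 4 + (1 / 2) ^ (d - 1) := by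
  rcases Nat.lt_or_ge d 4 with h | h
  · interval_cases d <;> norm_num
  · have : (4 : ℚ) ≤ d := by exact_mod_cast h
    have h2 : (0 : ℚ) < (1 / 2) ^ (d - 1) := by positivity
    linarith

theorem Phi_single_le (A : Finset V) (l : List V) {b : V} (hb : b ∈ A) (C : Finset V)
    (h : tok G C l b = 0) : 1 ≤ Phi G C A l := by
  unfold Phi
  have := Finset.single_le_sum (f := fun a => (1 / 2 : ℚ) ^ tok G C l a)
    (fun a _ => by positivity) hb
  simpa [h] using this

theorem phi_init_aux (hG : G.IsTree) (hN : ∀ x, ∃ y, G.Adj x y) (A : Finset V)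
    (hE : ∀ v ∈ core G, del G v ≤ 1 → v ∈ A) {a b : V} (haC : a ∈ core G) (hbC : b ∈ core G)
    (hbA : b ∈ A) (hab : G.Adj a b) (hda : 2 ≤ del G a) (hdb : 2 ≤ del G b) :
    1 ≤ Phi G (core G) (A.erase a) [a] := by
  classical
  set E := (core G).filter fun v => del G v ≤ 1 with hEdef
  have hbE : b ∉ E := by
    intro h
    have := (Finset.mem_filter.1 h).2
    omega
  have hsub : insert b E ⊆ A.erase a := by
    intro v hv
    rcases Finset.mem_insert.1 hv with rfl | hv
    · exact Finset.mem_erase.2 ⟨hab.symm.ne, hbA⟩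
    · have h2 := Finset.mem_filter.1 hv
      refine Finset.mem_erase.2 ⟨?_, hE v h2.1 h2.2⟩
      rintro rfl
      omega
  have h1 : Phi G (core G) (insert b E) [a] ≤ Phi G (core G) (A.erase a) [a] := by
    unfold Phi
    exact Finset.sum_le_sum_of_subset_of_nonneg hsub fun v _ _ => by positivity
  refine le_trans ?_ h1
  unfold Phi
  rw [Finset.sum_insert hbE]
  have hterm : (1 / 2 : ℚ) ^ (del G b - 1) ≤ (1 / 2 : ℚ) ^ tok G (core G) [a] b := by
    apply pow_le_pow_of_le_one (by norm_num) (by norm_num)
    have := tok_adj_le haC hab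
    omega
  have hEterm : ∀ v ∈ E, (2 - (del G v : ℚ)) / 4 ≤ (1 / 2 : ℚ) ^ tok G (core G) [a] v := by
    intro v hv
    have hd := (Finset.mem_filter.1 hv).2
    have h3 : (1 / 2 : ℚ) ^ (1 + del G v) ≤ (1 / 2 : ℚ) ^ tok G (core G) [a] v :=
      pow_le_pow_of_le_one (by norm_num) (by norm_num) (tok_le a v)
    refine le_trans ?_ h3
    interval_cases h : del G v <;> norm_num
  have hsumE : ∑ v ∈ E, (2 - (del G v : ℚ)) / 4
      ≤ ∑ v ∈ E, (1 / 2 : ℚ) ^ tok G (core G) [a] v := Finset.sum_le_sum hEterm
  have htotal : ∑ v ∈ core G, (2 - (del G v : ℚ)) = 2 := by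
    have h := sum_del hG hN ⟨a, haC⟩
    have hq : ∑ v ∈ core G, (del G v : ℚ) + 2 = 2 * ((core G).card : ℚ) := by
      exact_mod_cast h
    rw [Finset.sum_sub_distrib, Finset.sum_const, nsmul_eq_mul]
    linarith
  have hsplit : ∑ v ∈ core G, (2 - (del G v : ℚ)) = ∑ v ∈ E, (2 - (del G v : ℚ))
      + ∑ v ∈ (core G).filter (fun v => ¬ del G v ≤ 1), (2 - (del G v : ℚ)) := by
    rw [hEdef, Finset.sum_filter_add_sum_filter_not]
  have hrest : ∑ v ∈ (core G).filter (fun v => ¬ del G v ≤ 1), (2 - (del G v : ℚ))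
      ≤ 2 - (del G b : ℚ) := by
    have hbF : b ∈ (core G).filter (fun v => ¬ del G v ≤ 1) :=
      Finset.mem_filter.2 ⟨hbC, by omega⟩
    rw [← Finset.add_sum_erase _ _ hbF]
    have : ∑ v ∈ ((core G).filter (fun v => ¬ del G v ≤ 1)).erase b, (2 - (del G v : ℚ)) ≤ 0 := by
      refine Finset.sum_nonpos fun v hv => ?_
      have h2 := (Finset.mem_filter.1 (Finset.mem_of_mem_erase hv)).2
      have h3 : (2 : ℚ) ≤ del G v := by
        have : 2 ≤ del G v := by omega
        exact_mod_cast this
      linarith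
    linarith
  have hEsum : (del G b : ℚ) ≤ ∑ v ∈ E, (2 - (del G v : ℚ)) := by linarith
  have hdiv : ∑ v ∈ E, (2 - (del G v : ℚ)) / 4 = (∑ v ∈ E, (2 - (del G v : ℚ))) / 4 := by
    rw [Finset.sum_div]
  have harith := arith_aux (del G b) hdb
  rw [hdiv] at hsumE
  have : (del G b : ℚ) / 4 ≤ (∑ v ∈ E, (2 - (del G v : ℚ))) / 4 := by linarith
  linarith

/-- One of two adjacent vertices is a good first move. -/
theorem phi_init (hG : G.IsTree) (hN : ∀ x, ∃ y, G.Adj x y) (A : Finset V)
    (hE : ∀ v ∈ core G, del G v ≤ 1 → v ∈ A) {a b : V} (haC : a ∈ core G) (hbC : b ∈ core G)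
    (haA : a ∈ A) (hbA : b ∈ A) (hab : G.Adj a b) :
    1 ≤ Phi G (core G) (A.erase a) [a] ∨ 1 ≤ Phi G (core G) (A.erase b) [b] := by
  by_cases hdb : 2 ≤ del G b
  · by_cases hda : 2 ≤ del G a
    · exact Or.inl (phi_init_aux hG hN A hE haC hbC hbA hab hda hdb)
    · right
      refine Phi_single_le _ _ (Finset.mem_erase.2 ⟨hab.ne, haA⟩) _ ?_
      have := tok_adj_le hbC hab.symm
      omega
  · left
    refine Phi_single_le _ _ (Finset.mem_erase.2 ⟨hab.symm.ne, hbA⟩) _ ?_
    have := tok_adj_le haC hab
    omega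

end

end Pool.Agent.Q268.ZL
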