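import Mathlib

/-!
# The Z-domination game and the LL-domination game: definitions and the strategy lemmas
-/

set_option autoImplicit false

universe u

namespace Pool.Agent.Q268.ZL

variable {V : Type u}

/-- `l` is the list of the vertices chosen so far.  The vertex `v` is a legal move of the
Z-domination game iff `N(v)` is not contained in the union of the closed neighbourhoods of the
vertices in `l`. -/
def LegalZ (G : SimpleGraph V) (l : List V) (v : V) : Prop :=
  ∃ x, G.Adj v x ∧ ∀ u ∈ l, ¬ (x = u ∨ G.Adj u x)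

/-- The vertex `v` is a legal move of the LL-domination game iff `N[v]` is not contained in the
union of the open neighbourhoods of the vertices in `l`. -/
def LegalLL (G : SimpleGraph V) (l : List V) (v : V) : Prop :=
  ∃ x, (x = v ∨ G.Adj v x) ∧ ∀ u ∈ l, ¬ G.Adj u x

/-- `Within legal k d l`: the vertices in `l` have been chosen, and Dominator (if `d = true`) or
Staller (if `d = false`) is to move; Dominator can force that the game ends after at most `k`
further moves. -/
def Within (legal : List V → V → Prop) : ℕ → Bool → List V → Prop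
  | 0, _, l => ∀ v, ¬ legal l v
  | k + 1, true, l => (∀ v, ¬ legal l v) ∨ ∃ v, legal l v ∧ Within legal k false (v :: l)
  | k + 1, false, l => ∀ v, legal l v → Within legal k true (v :: l)

/-- The number of moves under optimal play, Dominator moving first. -/
noncomputable def gameNumber (legal : List V → V → Prop) : ℕ :=
  sInf {k | Within legal k true []}

section basic

variable {legal : List V → V → Prop}

theorem within_over {l : List V} (h : ∀ v, ¬ legal l v) (k : ℕ) (d : Bool) :
    Within legal k d l := by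
  cases k with
  | zero => simpa [Within] using h
  | succ k =>
    cases d with
    | true => exact Or.inl h
    | false => intro v hv; exact absurd hv (h v)

theorem within_succ {k : ℕ} : ∀ {d : Bool} {l : List V}, Within legal k d l →
    Within legal (k + 1) d l := by
  induction k with
  | zero => intro d l h; exact within_over h 1 d
  | succ k ih =>
    intro d l h
    cases d with
    | true =>
      rcases h with h | ⟨v, hv, h⟩
      · exact Or.inl h
      · exact Or.inr ⟨v, hv, ih h⟩
    | false => intro v hv; exact ih (h v hv)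

theorem within_mono {k k' : ℕ} (hk : k ≤ k') {d : Bool} {l : List V} (h : Within legal k d l) :
    Within legal k' d l := by
  induction hk with
  | refl => exact h
  | step _ ih => exact within_succ ih

end basic

section Z

variable (G : SimpleGraph V)

/-- `x` is not dominated by the vertices of `l`. -/
def Und (l : List V) (x : V) : Prop := ∀ u ∈ l, ¬ (x = u ∨ G.Adj u x)

theorem und_cons {l : List V} {v x : V} :
    Und G (v :: l) x ↔ ¬ (x = v ∨ G.Adj v x) ∧ Und G l x := by
  simp [Und]

theorem und_of_cons {l : List V} {v x : V} (h : Und G (v :: l) x) : Und G l x :=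
  ((und_cons G).1 h).2

theorem no_legalZ {l : List V} (h : ∀ x, ¬ Und G l x) (v : V) : ¬ LegalZ G l v := by
  rintro ⟨x, _, hx⟩
  exact h x hx

theorem legal_cover (hN : ∀ x, ∃ y, G.Adj x y) {l : List V} {a : V}
    (ha : ∃ x, Und G l x ∧ (x = a ∨ G.Adj a x)) :
    ∃ v, LegalZ G l v ∧ ∀ x, (x = a ∨ G.Adj a x) → ¬ Und G (v :: l) x := by
  by_cases h : ∃ x, G.Adj a x ∧ Und G l x
  · obtain ⟨x, hax, hx⟩ := h
    refine ⟨a, ⟨x, hax, hx⟩, fun y hy hU => ?_⟩
    exact ((und_cons G).1 hU).1 hy
  · push Not at h
    obtain ⟨x, hx, hxa⟩ := ha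
    have hxa' : x = a := by
      rcases hxa with e | e
      · exact e
      · exact absurd hx (h x e)
    subst hxa'
    obtain ⟨w, hw⟩ := hN x
    refine ⟨w, ⟨x, hw.symm, hx⟩, fun y hy hU => ?_⟩
    rcases hy with rfl | hy
    · exact ((und_cons G).1 hU).1 (Or.inr hw.symm)
    · exact h y hy (und_of_cons G hU)

theorem z_upper [DecidableEq V] (hN : ∀ x, ∃ y, G.Adj x y) :
    ∀ (m : ℕ) (A : Finset V) (l : List V), A.card ≤ m →
      (∀ x, Und G l x → ∃ a ∈ A, x = a ∨ G.Adj a x) →
      Within (LegalZ G) (2 * m - 1) true l := by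
  intro m
  induction m with
  | zero =>
    intro A l hA hdom
    have hA0 : A = ∅ := Finset.card_eq_zero.1 (Nat.le_zero.1 hA)
    subst hA0
    refine within_over (no_legalZ G fun x hx => ?_) _ _
    obtain ⟨a, ha, _⟩ := hdom x hx
    simp at ha
  | succ m ih =>
    intro A l hA hdom
    rcases A.eq_empty_or_nonempty with rfl | ⟨a, haA⟩
    · refine within_over (no_legalZ G fun x hx => ?_) _ _
      obtain ⟨a, ha, _⟩ := hdom x hx
      simp at ha
    · have hcard : (A.erase a).card ≤ m := by
        rw [Finset.card_erase_of_mem haA]; omega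
      by_cases hex : ∃ x, Und G l x ∧ (x = a ∨ G.Adj a x)
      · obtain ⟨v, hv, hcov⟩ := legal_cover G hN hex
        have hk : 2 * (m + 1) - 1 = 2 * m + 1 := by omega
        rw [hk]
        refine Or.inr ⟨v, hv, ?_⟩
        have hdom' : ∀ x, Und G (v :: l) x → ∃ a' ∈ A.erase a, x = a' ∨ G.Adj a' x := by
          intro x hx
          obtain ⟨a', ha', hxa'⟩ := hdom x (und_of_cons G hx)
          refine ⟨a', Finset.mem_erase.2 ⟨?_, ha'⟩, hxa'⟩
          rintro rfl
          exact hcov x hxa' hx
        cases m with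
        | zero =>
          have hA0 : A.erase a = ∅ := Finset.card_eq_zero.1 (Nat.le_zero.1 hcard)
          refine within_over (no_legalZ G fun x hx => ?_) _ _
          obtain ⟨a', ha', _⟩ := hdom' x hx
          rw [hA0] at ha'
          simp at ha'
        | succ m =>
          have h2 : 2 * (m + 1) = (2 * (m + 1) - 1) + 1 := by omega
          rw [h2]
          intro w _
          refine ih (A.erase a) (w :: v :: l) hcard fun x hx => hdom' x (und_of_cons G hx)
      · refine within_mono (k := 2 * m - 1) (by omega) (ih (A.erase a) l hcard fun x hx => ?_)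
        obtain ⟨a', ha', hxa'⟩ := hdom x hx
        refine ⟨a', Finset.mem_erase.2 ⟨?_, ha'⟩, hxa'⟩
        rintro rfl
        exact hex ⟨x, hx, hxa'⟩

end Z

section potential

variable (G : SimpleGraph V) [Fintype V] [DecidableEq V]

open Classical in
/-- The number of undominated vertices of `C` in the closed neighbourhood of `a`. -/
noncomputable def tok (C : Finset V) (l : List V) (a : V) : ℕ :=
  (C.filter fun r => Und G l r ∧ (r = a ∨ G.Adj a r)).card

/-- The potential. -/
noncomputable def Phi (C : Finset V) (A : Finset V) (l : List V) : ℚ :=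
  ∑ a ∈ A, (1 / 2 : ℚ) ^ tok G C l a

theorem tok_cons_le (C : Finset V) (l : List V) (v a : V) :
    tok G C (v :: l) a ≤ tok G C l a := by
  classical
  unfold tok
  refine Finset.card_le_card fun r hr => ?_
  simp only [Finset.mem_filter] at hr ⊢
  exact ⟨hr.1, und_of_cons G hr.2.1, hr.2.2⟩

theorem tok_cons_lt (C : Finset V) (l : List V) {v a x : V} (hxC : x ∈ C) (hx : Und G l x)
    (hxa : x = a ∨ G.Adj a x) (hvx : G.Adj v x) :
    tok G C (v :: l) a < tok G C l a := by
  classical
  unfold tok
  refine Finset.card_lt_card ((Finset.ssubset_iff_of_subset fun r hr => ?_).2 ⟨x, ?_, ?_⟩)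
  · simp only [Finset.mem_filter] at hr ⊢
    exact ⟨hr.1, und_of_cons G hr.2.1, hr.2.2⟩
  · simp only [Finset.mem_filter]
    exact ⟨hxC, hx, hxa⟩
  · simp only [Finset.mem_filter, not_and]
    intro _ hU
    exact absurd (Or.inr hvx) ((und_cons G).1 hU).1

theorem Phi_cons_le (C A : Finset V) (l : List V) (v : V) :
    Phi G C A l ≤ Phi G C A (v :: l) := by
  unfold Phi
  refine Finset.sum_le_sum fun a _ => ?_
  exact pow_le_pow_of_le_one (by norm_num) (by norm_num) (tok_cons_le G C l v a)

theorem Phi_cons_lt (C A : Finset V) (l : List V) {v a x : V} (haA : a ∈ A) (hxC : x ∈ C)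
    (hx : Und G l x) (hxa : x = a ∨ G.Adj a x) (hvx : G.Adj v x) :
    Phi G C A l < Phi G C A (v :: l) := by
  unfold Phi
  refine Finset.sum_lt_sum (fun a _ => ?_) ⟨a, haA, ?_⟩
  · exact pow_le_pow_of_le_one (by norm_num) (by norm_num) (tok_cons_le G C l v a)
  · exact pow_lt_pow_right_of_lt_one₀ (by norm_num) (by norm_num)
      (tok_cons_lt G C l hxC hx hxa hvx)

theorem Phi_erase (C A : Finset V) (l : List V) (h : 1 < Phi G C A l) (hA : A.Nonempty) :
    ∃ b ∈ A, 1 ≤ Phi G C (A.erase b) l := by
  obtain ⟨b, hb, hmax⟩ := Finset.exists_max_image A (fun a => tok G C l a) hA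
  refine ⟨b, hb, ?_⟩
  set T := tok G C l b with hT
  have hsum : Phi G C A l = Phi G C (A.erase b) l + (1 / 2 : ℚ) ^ T := by
    unfold Phi
    rw [← Finset.sum_erase_add _ _ hb]
  have hNat : Phi G C A l * 2 ^ T = ((∑ a ∈ A, 2 ^ (T - tok G C l a) : ℕ) : ℚ) := by
    unfold Phi
    rw [Finset.sum_mul]
    push_cast
    refine Finset.sum_congr rfl fun a ha => ?_
    have hle : tok G C l a ≤ T := hmax a ha
    obtain ⟨k, hk⟩ := Nat.exists_eq_add_of_le hle
    rw [hk, Nat.add_sub_cancel_left, pow_add, ← mul_assoc, ← mul_pow]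
    norm_num
  have h2T : (0 : ℚ) < 2 ^ T := by positivity
  have h1 : ((2 ^ T : ℕ) : ℚ) < ((∑ a ∈ A, 2 ^ (T - tok G C l a) : ℕ) : ℚ) := by
    rw [← hNat]
    push_cast
    nlinarith
  have h2 : 2 ^ T + 1 ≤ ∑ a ∈ A, 2 ^ (T - tok G C l a) := by exact_mod_cast h1
  have h3 : ((2 ^ T + 1 : ℕ) : ℚ) ≤ Phi G C A l * 2 ^ T := by
    rw [hNat]; exact_mod_cast h2
  have h4 : (1 / 2 : ℚ) ^ T * 2 ^ T = 1 := by
    rw [← mul_pow]; norm_num
  have h5 : Phi G C (A.erase b) l * 2 ^ T = Phi G C A l * 2 ^ T - 1 := by
    rw [hsum, add_mul, h4]; ring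
  push_cast at h3
  have h6 : 2 ^ T ≤ Phi G C (A.erase b) l * 2 ^ T := by rw [h5]; linarith
  by_contra hlt
  push Not at hlt
  nlinarith

theorem z_potential (hN : ∀ x, ∃ y, G.Adj x y) (C : Finset V)
    (hleaf : ∀ x, x ∉ C → ∀ y z, G.Adj x y → G.Adj x z → y = z) :
    ∀ (n : ℕ) (A : Finset V) (l : List V), A.card = n + 1 → A ⊆ C →
      (∀ x, Und G l x → ∃ a ∈ A, x = a ∨ G.Adj a x) →
      (1 < Phi G C A l → Within (LegalZ G) (2 * n) true l) ∧
      (1 ≤ Phi G C A l → Within (LegalZ G) (2 * n + 1) false l) := by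
  intro n
  have key : ∀ (n : ℕ), (∀ (A : Finset V) (l : List V), A.card = n + 1 → A ⊆ C →
      (∀ x, Und G l x → ∃ a ∈ A, x = a ∨ G.Adj a x) →
      1 < Phi G C A l → Within (LegalZ G) (2 * n) true l) →
      (∀ (A : Finset V) (l : List V), A.card = n + 1 → A ⊆ C →
      (∀ x, Und G l x → ∃ a ∈ A, x = a ∨ G.Adj a x) →
      1 ≤ Phi G C A l → Within (LegalZ G) (2 * n + 1) false l) := by
    intro n hD A l hcard hAC hdom hPhi v hv
    by_cases hcase : ∃ x, G.Adj v x ∧ Und G l x ∧ x ∈ C
    · obtain ⟨x, hvx, hx, hxC⟩ := hcase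
      obtain ⟨a, haA, hxa⟩ := hdom x hx
      exact hD A (v :: l) hcard hAC (fun y hy => hdom y (und_of_cons G hy))
        (lt_of_le_of_lt hPhi (Phi_cons_lt G C A l haA hxC hx hxa hvx))
    · obtain ⟨x, hvx, hx⟩ := hv
      have hxC : x ∉ C := fun h => hcase ⟨x, hvx, hx, h⟩
      obtain ⟨a, haA, hxa⟩ := hdom x hx
      have hav : a = v := by
        rcases hxa with rfl | hxa
        · exact absurd (hAC haA) hxC
        · exact hleaf x hxC a v hxa.symm hvx.symm
      subst hav
      refine within_mono (k := 2 * n - 1) (by omega)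
        (z_upper G hN n (A.erase a) (a :: l) ?_ fun y hy => ?_)
      · rw [Finset.card_erase_of_mem haA]; omega
      · obtain ⟨a', ha', hya'⟩ := hdom y (und_of_cons G hy)
        refine ⟨a', Finset.mem_erase.2 ⟨?_, ha'⟩, hya'⟩
        rintro rfl
        exact ((und_cons G).1 hy).1 hya'
  have main : ∀ (n : ℕ), (∀ (A : Finset V) (l : List V), A.card = n + 1 → A ⊆ C →
      (∀ x, Und G l x → ∃ a ∈ A, x = a ∨ G.Adj a x) →
      1 < Phi G C A l → Within (LegalZ G) (2 * n) true l) := by
    intro n
    induction n with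
    | zero =>
      intro A l hcard _ _ hPhi
      exfalso
      obtain ⟨a, rfl⟩ := Finset.card_eq_one.1 hcard
      unfold Phi at hPhi
      rw [Finset.sum_singleton] at hPhi
      have : (1 / 2 : ℚ) ^ tok G C l a ≤ 1 := pow_le_one₀ (by norm_num) (by norm_num)
      linarith
    | succ m ih =>
      intro A l hcard hAC hdom hPhi
      have hne : A.Nonempty := Finset.card_pos.1 (by omega)
      obtain ⟨b, hb, hPb⟩ := Phi_erase G C A l hPhi hne
      have hcard' : (A.erase b).card = m + 1 := by
        rw [Finset.card_erase_of_mem hb]; omega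
      by_cases hex : ∃ x, Und G l x ∧ (x = b ∨ G.Adj b x)
      · obtain ⟨v, hv, hcov⟩ := legal_cover G hN hex
        have hk : 2 * (m + 1) = (2 * m + 1) + 1 := by omega
        rw [hk]
        refine Or.inr ⟨v, hv, ?_⟩
        refine key m ih (A.erase b) (v :: l) hcard'
          (fun a ha => hAC (Finset.mem_of_mem_erase ha)) (fun x hx => ?_)
          (le_trans hPb (Phi_cons_le G C _ l v))
        obtain ⟨a', ha', hxa'⟩ := hdom x (und_of_cons G hx)
        refine ⟨a', Finset.mem_erase.2 ⟨?_, ha'⟩, hxa'⟩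
        rintro rfl
        exact hcov x hxa' hx
      · refine within_mono (k := 2 * (m + 1) - 1) (by omega)
          (z_upper G hN (m + 1) (A.erase b) l hcard'.le fun x hx => ?_)
        obtain ⟨a', ha', hxa'⟩ := hdom x hx
        refine ⟨a', Finset.mem_erase.2 ⟨?_, ha'⟩, hxa'⟩
        rintro rfl
        exact hex ⟨x, hx, hxa'⟩
  intro A l hcard hAC hdom
  exact ⟨main n A l hcard hAC hdom, key n (main n) A l hcard hAC hdom⟩

end potential

end Pool.Agent.Q268.ZL
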