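import Pool.Agent.Q268.ZL.Game

/-!
# The LL-domination game: lower bounds by packings and by pure waste
-/

set_option autoImplicit false

universe u

namespace Pool.Agent.Q268.ZL

variable {V : Type u}

section LL

variable (G : SimpleGraph V)

/-- `x` is not totally dominated by the vertices of `l`. -/
def UndT (l : List V) (x : V) : Prop := ∀ u ∈ l, ¬ G.Adj u x

theorem undT_cons {l : List V} {v x : V} :
    UndT G (v :: l) x ↔ ¬ G.Adj v x ∧ UndT G l x := by
  simp [UndT]

theorem legalLL_self {l : List V} {x : V} (h : UndT G l x) : LegalLL G l x :=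
  ⟨x, Or.inl rfl, h⟩

/-- a packing: closed neighbourhoods of different elements are disjoint -/
def Packing (P : Finset V) : Prop :=
  ∀ p ∈ P, ∀ q ∈ P, ∀ z, (z = p ∨ G.Adj z p) → (z = q ∨ G.Adj z q) → p = q

theorem Packing.mono {P Q : Finset V} (h : Packing G P) (hQ : Q ⊆ P) : Packing G Q :=
  fun p hp q hq z h1 h2 => h p (hQ hp) q (hQ hq) z h1 h2

theorem ll_packing [DecidableEq V] :
    ∀ (k : ℕ) (P : Finset V) (l : List V), Packing G P → (∀ p ∈ P, UndT G l p) →
      (Within (LegalLL G) k true l → 2 * P.card ≤ k + 1) ∧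
      (Within (LegalLL G) k false l → 2 * P.card ≤ k) := by
  classical
  intro k
  induction k with
  | zero =>
    intro P l _ hU
    have hP0 : (∀ v, ¬ LegalLL G l v) → P.card = 0 := by
      intro h
      rw [Finset.card_eq_zero, Finset.eq_empty_iff_forall_notMem]
      intro p hp
      exact h p (legalLL_self G (hU p hp))
    constructor
    · intro h
      have := hP0 h
      omega
    · intro h
      have := hP0 h
      omega
  | succ k ih =>
    intro P l hP hU
    constructor
    · intro h
      rcases P.eq_empty_or_nonempty with rfl | ⟨p, hp⟩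
      · simp
      rcases h with h | ⟨v, hv, h⟩
      · exact absurd (legalLL_self G (hU p hp)) (h p)
      · -- v covers at most one vertex of P
        have hcov : (P.filter fun p => G.Adj v p).card ≤ 1 := by
          rw [Finset.card_le_one]
          intro a ha b hb
          simp only [Finset.mem_filter] at ha hb
          exact hP a ha.1 b hb.1 v (Or.inr ha.2) (Or.inr hb.2)
        have hsplit := Finset.card_filter_add_card_filter_not (s := P) (fun p => G.Adj v p)
        have h2 := (ih (P.filter fun p => ¬ G.Adj v p) (v :: l)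
          (hP.mono G (Finset.filter_subset _ _)) (fun q hq => by
            simp only [Finset.mem_filter] at hq
            exact (undT_cons G).2 ⟨hq.2, hU q hq.1⟩)).2 h
        omega
    · intro h
      rcases P.eq_empty_or_nonempty with rfl | ⟨p, hp⟩
      · simp
      have h1 := h p (legalLL_self G (hU p hp))
      have h2 := (ih P (p :: l) hP (fun q hq => by
        refine (undT_cons G).2 ⟨fun hpq => ?_, hU q hq⟩
        have := hP p hp q hq p (Or.inl rfl) (Or.inr hpq)
        subst this
        exact G.loopless.irrefl _ hpq)).1 h1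
      omega

/-- Staller wastes moves as long as possible and then uses a packing. -/
theorem ll_waste [Fintype V] [DecidableEq V] [Nonempty V] (g : ℕ)
    (hadj : ∀ D : Finset V, (∀ x, ∃ a ∈ D, x = a ∨ G.Adj a x) →
      (∃ a ∈ D, ∃ b ∈ D, G.Adj a b) → g + 1 ≤ D.card)
    (hdual : ∀ U : Finset V, ∃ P W : Finset V, P ⊆ U ∧ W.card ≤ P.card ∧ Packing G P ∧
      ∀ x ∈ U, ∃ w ∈ W, x = w ∨ G.Adj w x) :
    ∀ (k : ℕ) (A : Finset V) (l : List V),
      (∀ x, UndT G l x ↔ ∀ a ∈ A, ¬ G.Adj a x) →
      (Within (LegalLL G) k true l → 2 * g + 1 ≤ k + 2 * A.card) ∧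
      (A.Nonempty → Within (LegalLL G) k false l → 2 * g + 2 ≤ k + 2 * A.card) := by
  classical
  -- if everything is totally dominated by A
  have hall : ∀ A : Finset V, (∀ x, ∃ a ∈ A, G.Adj a x) → g + 1 ≤ A.card := by
    intro A hA
    refine hadj A (fun x => ?_) ?_
    · obtain ⟨a, ha, hx⟩ := hA x
      exact ⟨a, ha, Or.inr hx⟩
    · obtain ⟨x⟩ := ‹Nonempty V›
      obtain ⟨a, ha, _⟩ := hA x
      obtain ⟨b, hb, hba⟩ := hA a
      exact ⟨b, hb, a, ha, hba⟩
  have hover : ∀ (A : Finset V) (l : List V), (∀ x, UndT G l x ↔ ∀ a ∈ A, ¬ G.Adj a x) →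
      (∀ v, ¬ LegalLL G l v) → g + 1 ≤ A.card := by
    intro A l hAl h
    refine hall A fun x => ?_
    by_contra hx
    push Not at hx
    exact h x (legalLL_self G ((hAl x).2 hx))
  -- the case in which Staller has no pure waste
  have hswitch : ∀ (k : ℕ) (A : Finset V) (l : List V),
      (∀ x, UndT G l x ↔ ∀ a ∈ A, ¬ G.Adj a x) → A.Nonempty →
      (¬ ∃ v, LegalLL G l v ∧ ∀ x, G.Adj v x → ¬ UndT G l x) →
      Within (LegalLL G) k false l → 2 * g + 2 ≤ k + 2 * A.card := by
    intro k A l hAl hne hno hW
    have hAA : ∀ a ∈ A, ∃ b ∈ A, G.Adj b a := by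
      intro a ha
      by_contra hcon
      push Not at hcon
      refine hno ⟨a, legalLL_self G ((hAl a).2 hcon), fun x hax hU => ?_⟩
      exact (hAl x).1 hU a ha hax
    obtain ⟨P, W, hPU, hWP, hPk, hWdom⟩ := hdual (Finset.univ.filter fun x => UndT G l x)
    have h1 : g + 1 ≤ (A ∪ W).card := by
      refine hadj _ (fun x => ?_) ?_
      · by_cases hx : UndT G l x
        · obtain ⟨w, hw, hxw⟩ := hWdom x (by simpa using hx)
          exact ⟨w, Finset.mem_union_right _ hw, hxw⟩
        · rw [hAl x] at hx
          push Not at hx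
          obtain ⟨a, ha, hax⟩ := hx
          exact ⟨a, Finset.mem_union_left _ ha, Or.inr hax⟩
      · obtain ⟨a, ha⟩ := hne
        obtain ⟨b, hb, hba⟩ := hAA a ha
        exact ⟨b, Finset.mem_union_left _ hb, a, Finset.mem_union_left _ ha, hba⟩
    have h2 : (A ∪ W).card ≤ A.card + W.card := Finset.card_union_le _ _
    have h3 := (ll_packing G k P l hPk (fun p hp => by simpa using hPU hp)).2 hW
    omega
  intro k
  induction k with
  | zero =>
    intro A l hAl
    constructor
    · intro h
      have := hover A l hAl h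
      omega
    · intro _ h
      have := hover A l hAl h
      omega
  | succ k ih =>
    intro A l hAl
    constructor
    · intro h
      rcases h with h | ⟨v, hv, h⟩
      · have := hover A l hAl h
        omega
      · have h2 := (ih (insert v A) (v :: l) (fun x => by
          rw [undT_cons, hAl x]
          simp)).2 (Finset.insert_nonempty _ _) h
        have h3 : (insert v A).card ≤ A.card + 1 := Finset.card_insert_le _ _
        omega
    · intro hne h
      by_cases hno : ∃ v, LegalLL G l v ∧ ∀ x, G.Adj v x → ¬ UndT G l x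
      · obtain ⟨v, hv, hvw⟩ := hno
        have h2 := (ih A (v :: l) (fun x => by
          rw [undT_cons, ← hAl x]
          constructor
          · exact fun h => h.2
          · exact fun hx => ⟨fun hvx => hvw x hvx hx, hx⟩)).1 (h v hv)
        omega
      · exact hswitch (k + 1) A l hAl hne hno h

/-- Dominator can end the LL-game. -/
theorem ll_finite [Fintype V] [DecidableEq V] (hN : ∀ x, ∃ y, G.Adj x y) :
    ∀ (m : ℕ) (U : Finset V) (l : List V), U.card ≤ m → (∀ x, UndT G l x → x ∈ U) →
      Within (LegalLL G) (2 * m) true l := by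
  classical
  intro m
  induction m with
  | zero =>
    intro U l hU hUl
    have hU0 : U = ∅ := Finset.card_eq_zero.1 (Nat.le_zero.1 hU)
    subst hU0
    refine within_over (fun v => ?_) _ _
    rintro ⟨x, _, hx⟩
    simpa using hUl x hx
  | succ m ih =>
    intro U l hU hUl
    by_cases hex : ∃ x, UndT G l x
    · obtain ⟨x, hx⟩ := hex
      obtain ⟨y, hy⟩ := hN x
      have hk : 2 * (m + 1) = (2 * m + 1) + 1 := by ring
      rw [hk]
      refine Or.inr ⟨y, ⟨x, Or.inr hy.symm, hx⟩, fun w _ => ?_⟩
      refine ih (U.erase x) (w :: y :: l) ?_ fun z hz => ?_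
      · have := hUl x hx
        rw [Finset.card_erase_of_mem this]; omega
      · have h1 := (undT_cons G).1 hz
        have h2 := (undT_cons G).1 h1.2
        refine Finset.mem_erase.2 ⟨?_, hUl z h2.2⟩
        rintro rfl
        exact h2.1 hy.symm
    · refine within_over (fun v => ?_) _ _
      rintro ⟨x, _, hx⟩
      exact hex ⟨x, hx⟩

end LL

end Pool.Agent.Q268.ZL
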