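import Pool.Agent.Q268.ZL.LL

/-!
# Trees: packing duality for subsets of the vertex set
-/

set_option autoImplicit false

universe u

namespace Pool.Agent.Q268.ZL

variable {V : Type u} {G : SimpleGraph V}

theorem eq_penultimate (hG : G.IsTree) {r v x : V} {q : G.Walk r v} (hq : q.IsPath)
    (hql : q.length = G.dist r v) (hx : G.Adj v x) (hdx : G.dist r x ≤ G.dist r v) :
    x = q.penultimate := by
  by_cases hs : x ∈ q.support
  · exact hG.isAcyclic.eq_penultimate_of_adj_end hq hx hs
  · exfalso
    obtain ⟨p, hp, hpl⟩ := hG.connected.exists_path_of_dist r x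
    have hv : v ∈ p.support :=
      hG.isAcyclic.mem_support_of_ne_mem_support_of_adj_of_isPath hp hq hx.symm hs
    have h := hG.isAcyclic.path_concat hq hp hx hv
    have h2 : p.length = q.length + 1 := by rw [h, SimpleGraph.Walk.length_concat]
    omega

theorem parent_unique (hG : G.IsTree) (r : V) {v x y : V} (hx : G.Adj v x) (hy : G.Adj v y)
    (hdx : G.dist r x ≤ G.dist r v) (hdy : G.dist r y ≤ G.dist r v) : x = y := by
  obtain ⟨q, hq, hql⟩ := hG.connected.exists_path_of_dist r v
  rw [eq_penultimate hG hq hql hx hdx, eq_penultimate hG hq hql hy hdy]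

theorem exists_parent (hG : G.IsTree) (r : V) {v : V} (hv : v ≠ r) :
    ∃ w, G.Adj v w ∧ G.dist r w ≤ G.dist r v := by
  classical
  obtain ⟨q, hq, hql⟩ := hG.connected.exists_path_of_dist r v
  have hnil : ¬ q.Nil := fun h => hv h.eq.symm
  have hadj : G.Adj q.penultimate v := q.adj_penultimate hnil
  refine ⟨q.penultimate, hadj.symm, ?_⟩
  have hmem : q.penultimate ∈ q.support := SimpleGraph.Walk.getVert_mem_support _ _
  calc G.dist r q.penultimate ≤ (q.takeUntil _ hmem).length := SimpleGraph.dist_le _
    _ ≤ q.length := q.length_takeUntil_le_length hmem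
    _ = G.dist r v := hql

theorem exists_center (hG : G.IsTree) (r u : V) :
    ∃ w, (u = w ∨ G.Adj w u) ∧ ∀ u', G.dist r u' ≤ G.dist r u →
      (∃ z, (z = u ∨ G.Adj z u) ∧ (z = u' ∨ G.Adj z u')) → (u' = w ∨ G.Adj w u') := by
  by_cases hu : u = r
  · subst hu
    refine ⟨u, Or.inl rfl, fun u' hd _ => Or.inl ?_⟩
    rw [SimpleGraph.dist_self, Nat.le_zero] at hd
    exact (hG.connected.dist_eq_zero_iff.1 hd).symm
  · obtain ⟨w, hw, hdw⟩ := exists_parent hG r hu
    refine ⟨w, Or.inr hw.symm, fun u' hd hz => ?_⟩
    obtain ⟨z, hzu, hzu'⟩ := hz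
    rcases hzu with rfl | hzu
    · rcases hzu' with rfl | hzu'
      · exact Or.inr hw.symm
      · exact Or.inl (parent_unique hG r hzu' hw hd hdw)
    · rcases le_or_gt (G.dist r z) (G.dist r u) with hle | hlt
      · have hzw : z = w := parent_unique hG r hzu.symm hw hle hdw
        subst hzw
        rcases hzu' with rfl | h
        · exact Or.inl rfl
        · exact Or.inr h
      · rcases hzu' with rfl | hzu'
        · omega
        · have : u = u' := parent_unique hG r hzu hzu' hlt.le (by omega)
          subst this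
          exact Or.inr hw.symm

theorem tree_dual [DecidableEq V] (hG : G.IsTree) (r : V) :
    ∀ U : Finset V, ∃ P W : Finset V, P ⊆ U ∧ W.card ≤ P.card ∧ Packing G P ∧
      ∀ x ∈ U, ∃ w ∈ W, x = w ∨ G.Adj w x := by
  classical
  intro U
  induction U using Finset.strongInduction with
  | H U ih =>
    rcases U.eq_empty_or_nonempty with rfl | hne
    · exact ⟨∅, ∅, by simp, by simp, by simp [Packing], by simp⟩
    · obtain ⟨u, huU, hmax⟩ := Finset.exists_max_image U (fun x => G.dist r x) hne
      obtain ⟨w, hwu, hw⟩ := exists_center hG r u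
      obtain ⟨P, W, hPU, hWP, hP, hW⟩ := ih (U.filter fun x => ¬ (x = w ∨ G.Adj w x)) (by
        rw [Finset.ssubset_iff_of_subset (Finset.filter_subset _ _)]
        exact ⟨u, huU, fun h => (Finset.mem_filter.1 h).2 hwu⟩)
      have huP : u ∉ P := fun h => (Finset.mem_filter.1 (hPU h)).2 hwu
      have hcross : ∀ p ∈ P, ∀ z, (z = u ∨ G.Adj z u) → ¬ (z = p ∨ G.Adj z p) := by
        intro p hp z h1 h2
        have hpU := Finset.mem_filter.1 (hPU hp)
        exact hpU.2 (hw p (hmax p hpU.1) ⟨z, h1, h2⟩)
      refine ⟨insert u P, insert w W, ?_, ?_, ?_, ?_⟩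
      · intro x hx
        rcases Finset.mem_insert.1 hx with rfl | hx
        · exact huU
        · exact (Finset.mem_filter.1 (hPU hx)).1
      · rw [Finset.card_insert_of_notMem huP]
        exact (Finset.card_insert_le _ _).trans (by omega)
      · intro p hp q hq z h1 h2
        rcases Finset.mem_insert.1 hp with hpu | hp'
        · rcases Finset.mem_insert.1 hq with hqu | hq'
          · rw [hpu, hqu]
          · rw [hpu] at h1
            exact absurd h2 (hcross q hq' z h1)
        · rcases Finset.mem_insert.1 hq with hqu | hq'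
          · rw [hqu] at h2
            exact absurd h1 (hcross p hp' z h2)
          · exact hP p hp' q hq' z h1 h2
      · intro x hx
        by_cases hxw : x = w ∨ G.Adj w x
        · exact ⟨w, Finset.mem_insert_self _ _, hxw⟩
        · obtain ⟨w', hw', hxw'⟩ := hW x (Finset.mem_filter.2 ⟨hx, hxw⟩)
          exact ⟨w', Finset.mem_insert_of_mem hw', hxw'⟩

end Pool.Agent.Q268.ZL
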